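import Pool.Agent.X166.LW.J

/-!
# The sharp local section inequality for all `s`-covers

`sectionVol K τ x` is the `(n - |τ|)`-dimensional volume of the section of `K ⊆ ℝⁿ` by
`x + H_τ^⊥`, and `maxSection K σ = M_σ(K)` is the largest volume of a section by a translate of
`H_σ^⊥` (see `Pool.Agent.X166.LW.J`).
-/

namespace Pool.Agent.Results.MP_3c9300_gt.SharpCoverInequality

open MeasureTheory Pool.Agent.X166.LW

theorem result {n : ℕ} (K : Set (Fin n → ℝ)) (hKc : IsCompact K) (hK : Convex ℝ K)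
    (hKi : (interior K).Nonempty) (σ : Finset (Fin n)) (m s : ℕ) (hm : 1 ≤ m) (hs : 1 ≤ s)
    (τ : Fin m → Finset (Fin n)) (hτ : ∀ j, τ j ⊆ σ)
    (hcov : ∀ i ∈ σ, (Finset.univ.filter fun j => i ∈ τ j).card = s) :
    (∏ j, ((Nat.factorial (σ.card - (τ j).card) : ℕ) : ℝ)) /
        ((Nat.factorial σ.card : ℕ) : ℝ) ^ ((m : ℤ) - (s : ℤ)) *
      ∏ j, sectionVol K (τ j) 0 ≤
    (volume K).toReal ^ ((m : ℤ) - (s : ℤ)) * maxSection K σ ^ s :=
  main K hKc hK hKi σ m s hm hs τ hτ hcov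

end Pool.Agent.Results.MP_3c9300_gt.SharpCoverInequality
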